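import Pool.Agent.N783.PQ.Def

/-!
# PQ/PB (helper951): pairs of integral symmetric matrices in boxes
-/

set_option autoImplicit false
set_option linter.all false

open Polynomial Matrix
open scoped Classical

namespace Pool.Agent.N951.PQ

open Pool.Agent.N352.PJ (Mt Typ dd)
open Pool.Agent.N783.PQ

/-! ### The pairs of indices -/

/-- the pairs `i ≤ j` -/
def P2 (g : ℕ) : Finset (Fin (2 * g + 1) × Fin (2 * g + 1)) :=
  (Finset.univ : Finset (Fin (2 * g + 1) × Fin (2 * g + 1))).filter (fun p => p.1 ≤ p.2)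

lemma mem_P2 {g : ℕ} {p : Fin (2 * g + 1) × Fin (2 * g + 1)} : p ∈ P2 g ↔ p.1 ≤ p.2 := by
  simp [P2]

lemma card_P2 (g : ℕ) : (P2 g).card = dd g + 1 := by
  set A := (Finset.univ : Finset (Fin (2 * g + 1) × Fin (2 * g + 1))).filter
    (fun p => p.1 ≤ p.2) with hA
  set A' := (Finset.univ : Finset (Fin (2 * g + 1) × Fin (2 * g + 1))).filter
    (fun p => p.2 ≤ p.1) with hA'
  have h1 : A.card = A'.card := by
    refine Finset.card_bij (fun p _ => (p.2, p.1)) ?_ ?_ ?_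
    · intro p hp
      rw [hA, Finset.mem_filter] at hp
      rw [hA', Finset.mem_filter]
      exact ⟨Finset.mem_univ _, hp.2⟩
    · intro p _ p' _ h
      rw [Prod.mk.injEq] at h
      exact Prod.ext h.2 h.1
    · intro p hp
      rw [hA', Finset.mem_filter] at hp
      refine ⟨(p.2, p.1), ?_, rfl⟩
      rw [hA, Finset.mem_filter]
      exact ⟨Finset.mem_univ _, hp.2⟩
  have h2 : A ∪ A' = Finset.univ := by
    ext p
    simp only [hA, hA', Finset.mem_union, Finset.mem_filter, Finset.mem_univ, true_and, iff_true]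
    exact le_total _ _
  have h3 : A ∩ A' = (Finset.univ : Finset (Fin (2 * g + 1))).image (fun i => (i, i)) := by
    ext p
    simp only [hA, hA', Finset.mem_inter, Finset.mem_filter, Finset.mem_univ, true_and,
      Finset.mem_image]
    constructor
    · rintro ⟨ha, hb⟩
      exact ⟨p.1, Prod.ext rfl (le_antisymm ha hb)⟩
    · rintro ⟨i, rfl⟩
      exact ⟨le_rfl, le_rfl⟩
  have h4 := Finset.card_union_add_card_inter A A'
  rw [h2, h3, Finset.card_image_of_injective _ (fun i j h => (Prod.mk.inj h).1), Finset.card_univ,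
    Finset.card_univ, Fintype.card_prod, Fintype.card_fin, ← h1] at h4
  have h5 : P2 g = A := rfl
  rw [h5]
  unfold dd
  have h7 : A.card + A.card = 2 * (2 * g ^ 2 + 3 * g + 1) := by
    rw [← h4]; ring
  omega

lemma sum_P2 {g : ℕ} {w : Fin (2 * g + 1) → ℤ} (hw : Typ g w) :
    ∑ p ∈ P2 g, (w p.1 + w p.2) = 0 := by
  have h1 : ∑ p ∈ P2 g, (w p.1 + w p.2) = ∑ p ∈ P2 g, -(w p.1 + w p.2) := by
    refine Finset.sum_bij (fun p _ => (Fin.rev p.2, Fin.rev p.1)) ?_ ?_ ?_ ?_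
    · intro p hp
      rw [mem_P2] at hp ⊢
      exact Fin.rev_le_rev.2 hp
    · intro p _ p' _ h
      rw [Prod.mk.injEq] at h
      exact Prod.ext (Fin.rev_injective h.2) (Fin.rev_injective h.1)
    · intro p hp
      refine ⟨(Fin.rev p.2, Fin.rev p.1), ?_, ?_⟩
      · rw [mem_P2] at hp ⊢
        exact Fin.rev_le_rev.2 hp
      · simp
    · intro p _
      rw [hw.anti, hw.anti]
      ring
  rw [Finset.sum_neg_distrib] at h1
  omega

lemma sum_w {g : ℕ} {w : Fin (2 * g + 1) → ℤ} (hw : Typ g w) : ∑ i, w i = 0 := by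
  have h1 : ∑ i, w (Fin.rev i) = ∑ i, w i := Equiv.sum_comp Fin.revPerm w
  have h2 : ∑ i, w (Fin.rev i) = -∑ i, w i := by
    rw [← Finset.sum_neg_distrib]
    exact Finset.sum_congr rfl fun i _ => hw.anti i
  omega

/-! ### Integers in intervals -/

/-- integers of absolute value at most `2 ^ e` -/
abbrev Ib (e : ℤ) : Type := {b : ℤ // b ∈ Finset.Icc (-(2 ^ e.toNat : ℤ)) (2 ^ e.toNat)}

lemma card_Ib (e : ℤ) : Nat.card (Ib e) ≤ 3 * 2 ^ e.toNat := by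
  rw [Nat.card_eq_fintype_card, Fintype.card_coe, Int.card_Icc]
  have h : (0 : ℤ) < 2 ^ e.toNat := by positivity
  have h1 : (1 : ℤ) ≤ 2 ^ e.toNat := h
  zify
  rw [Int.toNat_of_nonneg (by linarith)]
  linarith

lemma mem_Ib {e b : ℤ} (h : ((|b| : ℤ) : ℝ) ≤ (2 : ℝ) ^ e) :
    b ∈ Finset.Icc (-(2 ^ e.toNat : ℤ)) (2 ^ e.toNat) := by
  rw [Finset.mem_Icc, ← abs_le]
  rcases le_or_gt 0 e with he | he
  · have h1 : (2 : ℝ) ^ e = ((2 ^ e.toNat : ℤ) : ℝ) := by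
      push_cast
      rw [← zpow_natCast, Int.toNat_of_nonneg he]
    rw [h1] at h
    exact_mod_cast h
  · have h1 : (2 : ℝ) ^ e < 1 := zpow_lt_one_of_neg₀ (by norm_num) he
    have h2 : ((|b| : ℤ) : ℝ) < 1 := h.trans_lt h1
    have h3 : |b| < 1 := by exact_mod_cast h2
    have h4 : (0 : ℤ) < 2 ^ e.toNat := by positivity
    omega

/-- the quotients by `Q` of integers of absolute value at most `2 ^ e` -/
abbrev Jb (e : ℤ) (Q : ℕ) : Type :=
  {b : ℤ // b ∈ Finset.Icc (-((2 ^ e.toNat / Q : ℕ) : ℤ) - 1) ((2 ^ e.toNat / Q : ℕ) : ℤ)}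

lemma card_Jb {e : ℤ} {Q : ℕ} (hQ : 1 ≤ Q) (h : Q ≤ 2 ^ e.toNat) :
    Q * Nat.card (Jb e Q) ≤ 4 * 2 ^ e.toNat := by
  rw [Nat.card_eq_fintype_card, Fintype.card_coe, Int.card_Icc]
  set K := 2 ^ e.toNat / Q with hK
  have hK1 : 1 ≤ K := (Nat.one_le_div_iff hQ).2 h
  have hK2 : Q * K ≤ 2 ^ e.toNat := Nat.mul_div_le _ _
  have h1 : ((K : ℤ) + 1 - (-(K : ℤ) - 1)).toNat = 2 * K + 2 := by omega
  rw [h1]
  nlinarith

lemma mem_Jb {e : ℤ} {Q : ℕ} (hQ : 1 ≤ Q) {b : ℤ}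
    (h : b ∈ Finset.Icc (-(2 ^ e.toNat : ℤ)) (2 ^ e.toNat)) :
    b / (Q : ℤ) ∈ Finset.Icc (-((2 ^ e.toNat / Q : ℕ) : ℤ) - 1) ((2 ^ e.toNat / Q : ℕ) : ℤ) := by
  rw [Finset.mem_Icc] at h ⊢
  have hQ' : (0 : ℤ) < Q := by exact_mod_cast hQ
  have h1 : ((2 ^ e.toNat / Q : ℕ) : ℤ) = (2 ^ e.toNat : ℤ) / Q := by push_cast; rfl
  rw [h1]
  constructor
  · apply Int.le_ediv_of_mul_le hQ'
    have h2 := Int.emod_add_mul_ediv (2 ^ e.toNat : ℤ) Q
    have h3 := Int.emod_lt_of_pos (2 ^ e.toNat : ℤ) hQ'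
    have h4 : (-((2 ^ e.toNat : ℤ) / Q) - 1) * Q = -(Q * ((2 ^ e.toNat : ℤ) / Q)) - Q := by ring
    rw [h4]
    linarith [h.1]
  · exact Int.ediv_le_ediv hQ' h.2

/-! ### Matrices -/

section mats

variable {g : ℕ}

lemma isUnit_det {R : Type} [CommRing R] {A : Mt g R} (hd : A.det = (-1) ^ g) :
    IsUnit A.det := by
  rw [hd]
  exact (isUnit_one.neg).pow g

lemma exists_p0 {w : Fin (2 * g + 1) → ℤ} (hw : Typ g w) {A : Mt g ℤ} (hs : A.IsSymm)
    (hd : A.det = (-1) ^ g) : ∃ p0 ∈ P2 g, A⁻¹ p0.1 p0.2 ≠ 0 ∧ 0 ≤ w p0.1 + w p0.2 := by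
  have hu := isUnit_det hd
  have h1 : (A⁻¹).det ≠ 0 := by
    intro h0
    have h2 : (A * A⁻¹).det = 1 := by rw [mul_nonsing_inv A hu, det_one]
    rw [det_mul, h0, mul_zero] at h2
    exact zero_ne_one h2
  have h2 : ∃ σ : Equiv.Perm (Fin (2 * g + 1)), ∏ i, A⁻¹ (σ i) i ≠ 0 := by
    by_contra h
    push Not at h
    apply h1
    rw [det_apply]
    apply Finset.sum_eq_zero
    intro σ _
    rw [h σ, smul_zero]
  obtain ⟨σ, hσ⟩ := h2
  rw [Finset.prod_ne_zero_iff] at hσ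
  have h3 : ∑ i, (w (σ i) + w i) = 0 := by
    rw [Finset.sum_add_distrib, Equiv.sum_comp σ w, sum_w hw, add_zero]
  have h4 : ∃ i, 0 ≤ w (σ i) + w i := by
    by_contra h
    push Not at h
    have : ∑ i, (w (σ i) + w i) < 0 :=
      Finset.sum_neg (fun i _ => h i) Finset.univ_nonempty
    omega
  obtain ⟨i, hi⟩ := h4
  have hinv : (A⁻¹).IsSymm := hs.inv
  rcases le_total (σ i) i with hle | hle
  · exact ⟨(σ i, i), mem_P2.2 hle, hσ i (Finset.mem_univ _), hi⟩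
  · refine ⟨(i, σ i), mem_P2.2 hle, ?_, by simp only; omega⟩
    simp only
    rw [← hinv.apply]
    exact hσ i (Finset.mem_univ _)

/-- a symmetric matrix with `tr (C B) = 0` is determined by the entries other than `p0` -/
lemma mat_ext {C B B' : Mt g ℤ} (hC : C.IsSymm) (h1 : B.IsSymm) (h1' : B'.IsSymm)
    (h2 : (C * B).trace = 0) (h2' : (C * B').trace = 0)
    {p0 : Fin (2 * g + 1) × Fin (2 * g + 1)} (hp0 : p0 ∈ P2 g) (hC0 : C p0.1 p0.2 ≠ 0)
    (h : ∀ p ∈ (P2 g).erase p0, B p.1 p.2 = B' p.1 p.2) : B = B' := by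
  rw [← sub_eq_zero]
  set D := B - B' with hD
  have hDs : D.IsSymm := h1.sub h1'
  have hDt : (C * D).trace = 0 := by
    rw [hD, mul_sub, trace_sub, h2, h2', sub_zero]
  have hD0 : ∀ p ∈ P2 g, p ≠ p0 → D p.1 p.2 = 0 := by
    intro p hp hne
    rw [hD, Matrix.sub_apply, h p (Finset.mem_erase.2 ⟨hne, hp⟩), sub_self]
  have key : ∀ i j : Fin (2 * g + 1), (i, j) ≠ p0 → (j, i) ≠ p0 → D i j = 0 := by
    intro i j hij hji
    rcases le_total i j with hle | hle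
    · exact hD0 (i, j) (mem_P2.2 hle) hij
    · rw [← hDs.apply]
      exact hD0 (j, i) (mem_P2.2 hle) hji
  have key0 : D p0.1 p0.2 = 0 := by
    have e1 : (C * D).trace = ∑ p : Fin (2 * g + 1) × Fin (2 * g + 1), C p.1 p.2 * D p.2 p.1 := by
      rw [Fintype.sum_prod_type, trace]
      exact Finset.sum_congr rfl fun i _ => by rw [diag_apply, mul_apply]
    rw [hDt] at e1
    have e2 : ∑ p : Fin (2 * g + 1) × Fin (2 * g + 1), C p.1 p.2 * D p.2 p.1 =
        ∑ p ∈ ({p0, (p0.2, p0.1)} : Finset (Fin (2 * g + 1) × Fin (2 * g + 1))),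
          C p.1 p.2 * D p.2 p.1 := by
      symm
      apply Finset.sum_subset (Finset.subset_univ _)
      intro p _ hp
      rw [Finset.mem_insert, Finset.mem_singleton, not_or] at hp
      rw [key p.2 p.1, mul_zero]
      · intro h0
        exact hp.2 (by rw [← h0])
      · intro h0
        exact hp.1 h0
    rw [e2] at e1
    have hsym1 : D p0.2 p0.1 = D p0.1 p0.2 := hDs.apply _ _
    have hsym2 : C p0.2 p0.1 = C p0.1 p0.2 := hC.apply _ _
    by_cases hd : p0 = (p0.2, p0.1)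
    · rw [← hd, Finset.pair_eq_singleton, Finset.sum_singleton, hsym1] at e1
      rcases mul_eq_zero.1 e1.symm with h0 | h0
      · exact absurd h0 hC0
      · exact h0
    · rw [Finset.sum_pair hd] at e1
      simp only at e1
      rw [hsym1, hsym2, ← two_mul] at e1
      rcases mul_eq_zero.1 e1.symm with h0 | h0
      · omega
      · rcases mul_eq_zero.1 h0 with h0 | h0
        · exact absurd h0 hC0
        · exact h0
  ext i j
  rw [Matrix.zero_apply]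
  by_cases hij : (i, j) = p0
  · rw [← hij] at key0
    exact key0
  · by_cases hji : (j, i) = p0
    · rw [← hji] at key0
      rw [← hDs.apply]
      exact key0
    · exact key i j hij hji

end mats

/-! ### The trivial bound -/

section triv

variable {g N c : ℕ} {w : Fin (2 * g + 1) → ℤ} {S : Finset ℕ} {h : ℕ → ℤ[X]}

/-- the sum of the exponents, without the omitted one -/
lemma sum_erase {e : Fin (2 * g + 1) × Fin (2 * g + 1) → ℕ}
    {p0 : Fin (2 * g + 1) × Fin (2 * g + 1)} (hp0 : p0 ∈ P2 g) :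
    ∑ p ∈ (P2 g).erase p0, e p + e p0 = ∑ p ∈ P2 g, e p :=
  Finset.sum_erase_add _ _ hp0

lemma card_erase {p0 : Fin (2 * g + 1) × Fin (2 * g + 1)} (hp0 : p0 ∈ P2 g) :
    ((P2 g).erase p0).card = dd g := by
  rw [Finset.card_erase_of_mem hp0, card_P2]
  rfl

/-- for fixed `A` -/
lemma fiber_inj {A : Mt g ℤ} {p0 : Fin (2 * g + 1) × Fin (2 * g + 1)} (hA : A.IsSymm)
    (hp0 : p0 ∈ P2 g) (h0 : A⁻¹ p0.1 p0.2 ≠ 0) {B B' : Mt g ℤ}
    (hB : Xset g N c w S h A B) (hB' : Xset g N c w S h A B')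
    (heq : ∀ p ∈ (P2 g).erase p0, B p.1 p.2 = B' p.1 p.2) : B = B' :=
  mat_ext hA.inv hB.box.sB hB'.box.sB hB.box.tr hB'.box.tr hp0 h0 heq

lemma fiber0 (hw : Typ g w) (A : Mt g ℤ) :
    2 ^ (2 * N) * {B : Mt g ℤ | Xset g N c w S h A B}.ncard ≤ 3 ^ dd g * 2 ^ eB g N w := by
  rcases Set.eq_empty_or_nonempty {B : Mt g ℤ | Xset g N c w S h A B} with he | ⟨B0, hB0⟩
  · rw [he, Set.ncard_empty, mul_zero]
    exact Nat.zero_le _
  have hB0' : Xset g N c w S h A B0 := hB0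
  obtain ⟨p0, hp0, h0, hp0w⟩ := exists_p0 hw hB0'.box.sA hB0'.box.det
  let T := ∀ p : {p // p ∈ (P2 g).erase p0}, Ib (2 * (N : ℤ) + w p.1.1 + w p.1.2)
  let Φ : {B : Mt g ℤ | Xset g N c w S h A B} → T := fun B p =>
    ⟨B.1 p.1.1 p.1.2, mem_Ib (B.2.box.bB _ _)⟩
  have hΦ : Function.Injective Φ := by
    rintro ⟨B, hB⟩ ⟨B', hB'⟩ heq
    apply Subtype.ext
    refine fiber_inj hB0'.box.sA hp0 h0 hB hB' fun p hp => ?_
    exact congrArg (fun t : T => ((t ⟨p, hp⟩).1 : ℤ)) heq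
  have h1 := Nat.card_le_card_of_injective Φ hΦ
  rw [Nat.card_coe_set_eq] at h1
  have h2 : Nat.card T ≤ ∏ p ∈ (P2 g).erase p0, (3 * 2 ^ (2 * (N : ℤ) + w p.1 + w p.2).toNat) := by
    rw [Nat.card_pi, Finset.prod_coe_sort ((P2 g).erase p0)
      (fun p => Nat.card (Ib (2 * (N : ℤ) + w p.1 + w p.2)))]
    exact Finset.prod_le_prod' fun p _ => card_Ib _
  rw [Finset.prod_mul_distrib, Finset.prod_const, card_erase hp0, Finset.prod_pow_eq_pow_sum] at h2
  have h3 := sum_erase (e := fun p => (2 * (N : ℤ) + w p.1 + w p.2).toNat) hp0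
  have h4 : 2 * N ≤ (2 * (N : ℤ) + w p0.1 + w p0.2).toNat := by omega
  have h5 : 2 * N + ∑ p ∈ (P2 g).erase p0, (2 * (N : ℤ) + w p.1 + w p.2).toNat ≤ eB g N w := by
    have : eB g N w = ∑ p ∈ P2 g, (2 * (N : ℤ) + w p.1 + w p.2).toNat := rfl
    rw [this, ← h3]
    omega
  calc 2 ^ (2 * N) * {B : Mt g ℤ | Xset g N c w S h A B}.ncard
      ≤ 2 ^ (2 * N) * (3 ^ dd g *
        2 ^ ∑ p ∈ (P2 g).erase p0, (2 * (N : ℤ) + w p.1 + w p.2).toNat) :=
        Nat.mul_le_mul_left _ (h1.trans h2)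
    _ = 3 ^ dd g * 2 ^ (2 * N + ∑ p ∈ (P2 g).erase p0, (2 * (N : ℤ) + w p.1 + w p.2).toNat) := by
        rw [pow_add]; ring
    _ ≤ _ := Nat.mul_le_mul_left _ (Nat.pow_le_pow_right (by norm_num) h5)

/-- the pairs form a finite set -/
lemma fin_pairs : {p : Mt g ℤ × Mt g ℤ | Xset g N c w S h p.1 p.2}.Finite := by
  let T := (∀ p : Fin (2 * g + 1) × Fin (2 * g + 1), Ib ((c : ℤ) + w p.1 + w p.2)) ×
    (∀ p : Fin (2 * g + 1) × Fin (2 * g + 1), Ib (2 * (N : ℤ) + w p.1 + w p.2))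
  let Φ : {p : Mt g ℤ × Mt g ℤ | Xset g N c w S h p.1 p.2} → T := fun z =>
    (fun p => ⟨z.1.1 p.1 p.2, mem_Ib (z.2.box.bA _ _)⟩,
      fun p => ⟨z.1.2 p.1 p.2, mem_Ib (z.2.box.bB _ _)⟩)
  have hΦ : Function.Injective Φ := by
    rintro ⟨⟨A, B⟩, hAB⟩ ⟨⟨A', B'⟩, hAB'⟩ heq
    apply Subtype.ext
    apply Prod.ext
    · ext i j
      exact congrArg (fun t : T => ((t.1 (i, j)).1 : ℤ)) heq
    · ext i j
      exact congrArg (fun t : T => ((t.2 (i, j)).1 : ℤ)) heq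
  have : Finite {p : Mt g ℤ × Mt g ℤ | Xset g N c w S h p.1 p.2} := Finite.of_injective Φ hΦ
  exact Set.toFinite _

/-- the number of the matrices `A` -/
lemma card_A (s : Finset (Mt g ℤ)) (hs : ∀ A ∈ s, ∃ B, Xset g N c w S h A B) :
    s.card ≤ 3 ^ (dd g + 1) * 2 ^ (c * (dd g + 1)) * 2 ^ eA g w := by
  let T := ∀ p : {p // p ∈ P2 g}, Ib ((c : ℤ) + w p.1.1 + w p.1.2)
  let Φ : {A // A ∈ s} → T := fun A p =>
    ⟨A.1 p.1.1 p.1.2, by
      obtain ⟨B, hB⟩ := hs A.1 A.2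
      exact mem_Ib (hB.box.bA _ _)⟩
  have hΦ : Function.Injective Φ := by
    rintro ⟨A, hA⟩ ⟨A', hA'⟩ heq
    apply Subtype.ext
    obtain ⟨B, hB⟩ := hs A hA
    obtain ⟨B', hB'⟩ := hs A' hA'
    have key : ∀ p ∈ P2 g, A p.1 p.2 = A' p.1 p.2 := fun p hp =>
      congrArg (fun t : T => ((t ⟨p, hp⟩).1 : ℤ)) heq
    change A = A'
    ext i j
    rcases le_total i j with hle | hle
    · exact key (i, j) (mem_P2.2 hle)
    · rw [← hB.box.sA.apply, ← hB'.box.sA.apply]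
      exact key (j, i) (mem_P2.2 hle)
  have h1 := Nat.card_le_card_of_injective Φ hΦ
  rw [Nat.card_eq_fintype_card, Fintype.card_coe] at h1
  refine h1.trans ?_
  have h2 : Nat.card T ≤ ∏ p ∈ P2 g, (3 * 2 ^ c * 2 ^ (w p.1 + w p.2).toNat) := by
    rw [Nat.card_pi, Finset.prod_coe_sort (P2 g)
      (fun p => Nat.card (Ib ((c : ℤ) + w p.1 + w p.2)))]
    refine Finset.prod_le_prod' fun p _ => (card_Ib _).trans ?_
    rw [mul_assoc, ← pow_add]
    exact Nat.mul_le_mul_left _ (Nat.pow_le_pow_right (by norm_num) (by omega))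
  rw [Finset.prod_mul_distrib, Finset.prod_const, card_P2, Finset.prod_pow_eq_pow_sum, mul_pow,
    ← pow_mul] at h2
  exact h2

/-- from the fibres to the pairs -/
lemma assemble {K M : ℕ} (hf : ∀ A : Mt g ℤ, K * {B : Mt g ℤ | Xset g N c w S h A B}.ncard ≤ M) :
    K * {p : Mt g ℤ × Mt g ℤ | Xset g N c w S h p.1 p.2}.ncard ≤
      M * (3 ^ (dd g + 1) * 2 ^ (c * (dd g + 1)) * 2 ^ eA g w) := by
  have hfin := fin_pairs (g := g) (N := N) (c := c) (w := w) (S := S) (h := h)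
  set s := hfin.toFinset with hs
  rw [Set.ncard_eq_toFinset_card _ hfin, ← hs, Finset.card_eq_sum_card_image Prod.fst s,
    Finset.mul_sum]
  have h1 : ∀ A ∈ s.image Prod.fst, K * (s.filter (fun p => p.1 = A)).card ≤ M := by
    intro A hA
    refine le_trans (Nat.mul_le_mul_left _ ?_) (hf A)
    have hfinA : {B : Mt g ℤ | Xset g N c w S h A B}.Finite := by
      apply Set.Finite.subset (hfin.image Prod.snd)
      intro B hB
      exact ⟨(A, B), hB, rfl⟩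
    rw [Set.ncard_eq_toFinset_card _ hfinA]
    apply Finset.card_le_card_of_injOn Prod.snd
    · intro p hp
      rw [Finset.mem_coe, Finset.mem_filter, hs, Set.Finite.mem_toFinset] at hp
      rw [Finset.mem_coe, Set.Finite.mem_toFinset]
      have := hp.1
      rw [← hp.2]
      exact hp.1
    · intro p hp p' hp' heq
      rw [Finset.mem_coe, Finset.mem_filter] at hp hp'
      exact Prod.ext (hp.2.trans hp'.2.symm) heq
  refine (Finset.sum_le_sum h1).trans ?_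
  rw [Finset.sum_const, smul_eq_mul, mul_comm]
  apply Nat.mul_le_mul_left
  apply card_A (N := N) (c := c) (S := S) (h := h)
  intro A hA
  rw [Finset.mem_image] at hA
  obtain ⟨p, hp, rfl⟩ := hA
  rw [hs, Set.Finite.mem_toFinset] at hp
  exact ⟨p.2, hp⟩

end triv

theorem pb0 : S_PB0 := by
  intro g c hg
  refine ⟨3 ^ dd g * (3 ^ (dd g + 1) * 2 ^ (c * (dd g + 1))), fun S h N w hw => ⟨fin_pairs, ?_⟩⟩
  refine (assemble (fun A => fiber0 hw A)).trans (le_of_eq ?_)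
  rw [pow_add 2 (eA g w)]
  ring

/-! ### Reduction -/

section red

variable {g : ℕ} {R R' : Type} [CommRing R] [CommRing R'] (φ : R →+* R')

lemma inv_map' {A : Mt g R} (hA : IsUnit A.det) : (A.map φ)⁻¹ = A⁻¹.map φ := by
  apply inv_eq_right_inv
  rw [← Matrix.map_mul, mul_nonsing_inv A hA]
  exact Matrix.map_one φ (map_zero φ) (map_one φ)

lemma chp_map {A B : Mt g R} (hA : IsUnit A.det) :
    chp (A.map φ) (B.map φ) = (chp A B).map φ := by
  unfold chp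
  rw [← Matrix.charpoly_map, Matrix.map_mul, inv_map' φ hA]

lemma form_map {A B : Mt g R} (hA : IsUnit A.det) (m : ℕ) (ξ : Fin (2 * g + 1) → R) :
    form (A.map φ) (B.map φ) m (φ ∘ ξ) = φ (form A B m ξ) := by
  unfold form
  rw [RingHom.map_dotProduct]
  congr 1
  rw [inv_map' φ hA, ← Matrix.map_mul, ← Matrix.map_pow, ← Matrix.map_mul]
  funext i
  rw [Function.comp_apply, RingHom.map_mulVec]

lemma form_smul (A B : Mt g R) (m : ℕ) (c : R) (ξ : Fin (2 * g + 1) → R) :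
    form A B m (c • ξ) = c ^ 2 * form A B m ξ := by
  unfold form
  rw [Matrix.mulVec_smul, smul_dotProduct, dotProduct_smul, smul_eq_mul, smul_eq_mul]
  ring

end red

section prime

variable {g : ℕ}

/-- The good matrices `B` modulo `q`. -/
abbrev GQ (g : ℕ) (h : ℕ → ℤ[X]) (A : Mt g ℤ) (q : ℕ) : Type :=
  {B : Mt g (ZMod q) // B.IsSymm ∧ chp (A.map (Int.castRingHom (ZMod q))) B =
    X * rd q (h q) ∧ Dist (A.map (Int.castRingHom (ZMod q))) B}

lemma card_GQ (hCQ : S_CQA) (hg : 1 ≤ g) {W : ℕ} {S : Finset ℕ} {h : ℕ → ℤ[X]}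
    (hS : GoodS g W S h) {A : Mt g ℤ} (hA : A.IsSymm) (hd : A.det = (-1) ^ g) {q : ℕ}
    (hq : q ∈ S) : 2 * Nat.card (GQ g h A q) ≤ q ^ (g * (2 * g + 1)) := by
  obtain ⟨hp, _, _, h8, hm, hdeg, _, hirr⟩ := hS q hq
  haveI : Fact q.Prime := ⟨hp⟩
  refine hCQ g q hg (by omega) (rd q (h q)) (hm.map _) hirr (by rw [hm.natDegree_map, hdeg])
    (A.map (Int.castRingHom (ZMod q))) (hA.map _) ?_
  have h1 : (A.map (Int.castRingHom (ZMod q))).det = Int.castRingHom (ZMod q) A.det :=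
    (RingHom.map_det _ _).symm
  rw [h1, hd, map_pow, map_neg, map_one]

lemma dist_map {q : ℕ} (hq : q.Prime) {A B : Mt g ℤ} (hA : IsUnit A.det)
    (h : DistMod (q : ℤ) A B) :
    Dist (A.map (Int.castRingHom (ZMod q))) (B.map (Int.castRingHom (ZMod q))) := by
  haveI : Fact q.Prime := ⟨hq⟩
  obtain ⟨ξ, s, hs, hm⟩ := h
  have hs' : Int.castRingHom (ZMod q) s ≠ 0 := by
    intro h0
    exact hs ((ZMod.intCast_zmod_eq_zero_iff_dvd s q).1 h0)
  refine ⟨(Int.castRingHom (ZMod q) s)⁻¹ • (Int.castRingHom (ZMod q) ∘ ξ), fun m hm' => ?_⟩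
  rw [form_smul, form_map _ hA]
  have h1 : Int.castRingHom (ZMod q) (form A B m ξ - if m = 2 * g then s ^ 2 else 0) = 0 :=
    (ZMod.intCast_zmod_eq_zero_iff_dvd _ q).2 (hm m hm')
  rw [map_sub, sub_eq_zero] at h1
  rw [h1]
  by_cases h2 : m = 2 * g
  · rw [if_pos h2, if_pos h2, map_pow, ← mul_pow, inv_mul_cancel₀ hs', one_pow]
  · rw [if_neg h2, if_neg h2, map_zero, mul_zero]

lemma crt_dvd {S : Finset ℕ} (hS : ∀ q ∈ S, q.Prime) {x : ℤ} (hx : ∀ q ∈ S, (q : ℤ) ∣ x) :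
    ((∏ q ∈ S, q : ℕ) : ℤ) ∣ x := by
  rw [Int.natCast_dvd]
  apply Finset.prod_primes_dvd
  · intro q hq
    exact (hS q hq).prime
  · intro q hq
    exact Int.natCast_dvd.1 (hx q hq)

end prime

/-! ### The bound with congruences -/

section main

variable {g N c W : ℕ} {w : Fin (2 * g + 1) → ℤ} {S : Finset ℕ} {h : ℕ → ℤ[X]}

lemma fiber (hCQ : S_CQA) (hg : 1 ≤ g) (hS : GoodS g W S h) (hw : Typ g w)
    (hQ : ((∏ q ∈ S, q : ℕ) : ℝ) ≤ (2 : ℝ) ^ (2 * (N : ℤ) + 2 * w 0)) (A : Mt g ℤ) :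
    2 ^ S.card * (∏ q ∈ S, q ^ (2 * g)) * {B : Mt g ℤ | Xset g N c w S h A B}.ncard ≤
      4 ^ dd g * 2 ^ (2 * N * dd g) := by
  rcases Set.eq_empty_or_nonempty {B : Mt g ℤ | Xset g N c w S h A B} with he | ⟨B0, hB0⟩
  · rw [he, Set.ncard_empty, mul_zero]
    exact Nat.zero_le _
  have hB0' : Xset g N c w S h A B0 := hB0
  have hAs := hB0'.box.sA
  have hAd := hB0'.box.det
  have hAu := isUnit_det hAd
  obtain ⟨p0, hp0, h0, hp0w⟩ := exists_p0 hw hAs hAd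
  set Q : ℕ := ∏ q ∈ S, q with hQdef
  have hQ1 : 1 ≤ Q := Finset.prod_pos (fun q hq => (hS q hq).1.pos)
  have hw0 : ∀ i, w 0 ≤ w i := fun i => hw.mono (Fin.zero_le i)
  have hE : 0 ≤ 2 * (N : ℤ) + 2 * w 0 := by
    by_contra hcon
    push Not at hcon
    have h1 : (2 : ℝ) ^ (2 * (N : ℤ) + 2 * w 0) < 1 := zpow_lt_one_of_neg₀ (by norm_num) hcon
    have h2 : (1 : ℝ) ≤ (Q : ℝ) := by exact_mod_cast hQ1
    linarith
  have hQ2 : Q ≤ 2 ^ (2 * (N : ℤ) + 2 * w 0).toNat := by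
    have h1 : (2 : ℝ) ^ (2 * (N : ℤ) + 2 * w 0) =
        ((2 ^ (2 * (N : ℤ) + 2 * w 0).toNat : ℕ) : ℝ) := by
      push_cast
      rw [← zpow_natCast, Int.toNat_of_nonneg hE]
    rw [h1] at hQ
    exact_mod_cast hQ
  set e : Fin (2 * g + 1) × Fin (2 * g + 1) → ℕ :=
    fun p => (2 * (N : ℤ) + w p.1 + w p.2).toNat with he
  have hQe : ∀ p, Q ≤ 2 ^ e p := fun p => hQ2.trans (Nat.pow_le_pow_right (by norm_num) (by
    have h1 := hw0 p.1
    have h2 := hw0 p.2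
    show (2 * (N : ℤ) + 2 * w 0).toNat ≤ (2 * (N : ℤ) + w p.1 + w p.2).toNat
    omega))
  let T := (∀ q : {q // q ∈ S}, GQ g h A q.1) ×
    (∀ p : {p // p ∈ (P2 g).erase p0}, Jb (2 * (N : ℤ) + w p.1.1 + w p.1.2) Q)
  have keyQ : ∀ B : {B : Mt g ℤ | Xset g N c w S h A B}, ∀ q : {q // q ∈ S},
      (B.1.map (Int.castRingHom (ZMod q.1))).IsSymm ∧
      chp (A.map (Int.castRingHom (ZMod q.1))) (B.1.map (Int.castRingHom (ZMod q.1))) =
        X * rd q.1 (h q.1) ∧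
      Dist (A.map (Int.castRingHom (ZMod q.1))) (B.1.map (Int.castRingHom (ZMod q.1))) := by
    rintro ⟨B, hB⟩ ⟨q, hq⟩
    have hB' : Xset g N c w S h A B := hB
    refine ⟨hB'.box.sB.map _, ?_, dist_map (hS q hq).1 hAu (hB'.dist q hq)⟩
    show chp (A.map (Int.castRingHom (ZMod q))) (B.map (Int.castRingHom (ZMod q))) =
        X * rd q (h q)
    rw [chp_map _ hAu]
    have h1 : (X : (ZMod q)[X]) * rd q (h q) = (X * h q).map (Int.castRingHom (ZMod q)) := by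
      rw [Polynomial.map_mul, map_X]
    rw [h1]
    ext j
    rw [coeff_map, coeff_map, ← sub_eq_zero, ← map_sub]
    exact (ZMod.intCast_zmod_eq_zero_iff_dvd _ q).2 (hB'.con q hq j)
  let Φ : {B : Mt g ℤ | Xset g N c w S h A B} → T := fun B =>
    (fun q => ⟨B.1.map (Int.castRingHom (ZMod q.1)), keyQ B q⟩,
      fun p => ⟨B.1 p.1.1 p.1.2 / (Q : ℤ), mem_Jb hQ1 (mem_Ib (B.2.box.bB _ _))⟩)
  have hΦ : Function.Injective Φ := by
    rintro ⟨B, hB⟩ ⟨B', hB'⟩ heq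
    have hq : ∀ q ∈ S, B.map (Int.castRingHom (ZMod q)) = B'.map (Int.castRingHom (ZMod q)) := by
      intro q hq
      exact congrArg (fun t : T => (t.1 ⟨q, hq⟩).1) heq
    apply Subtype.ext
    change B = B'
    refine fiber_inj hAs hp0 h0 hB hB' fun p hp => ?_
    have h1 : B p.1 p.2 / (Q : ℤ) = B' p.1 p.2 / (Q : ℤ) :=
      congrArg (fun t : T => ((t.2 ⟨p, hp⟩).1 : ℤ)) heq
    have h2 : (Q : ℤ) ∣ B p.1 p.2 - B' p.1 p.2 := by
      apply crt_dvd (fun q hq => (hS q hq).1)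
      intro q hq'
      rw [← ZMod.intCast_zmod_eq_zero_iff_dvd, Int.cast_sub, sub_eq_zero]
      exact congrFun (congrFun (hq q hq') p.1) p.2
    have h3 : B p.1 p.2 % (Q : ℤ) = B' p.1 p.2 % (Q : ℤ) :=
      Int.emod_eq_emod_iff_emod_sub_eq_zero.2 (Int.emod_eq_zero_of_dvd h2)
    rw [← Int.emod_add_mul_ediv (B p.1 p.2) (Q : ℤ), ← Int.emod_add_mul_ediv (B' p.1 p.2) (Q : ℤ),
      h1, h3]
  haveI : ∀ q : {q // q ∈ S}, Finite (GQ g h A q.1) := fun q => by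
    haveI : NeZero q.1 := ⟨(hS q.1 q.2).1.ne_zero⟩
    infer_instance
  have h1 := Nat.card_le_card_of_injective Φ hΦ
  rw [Nat.card_coe_set_eq] at h1
  have hcard : Nat.card T = (∏ q ∈ S, Nat.card (GQ g h A q)) *
      ∏ p ∈ (P2 g).erase p0, Nat.card (Jb (2 * (N : ℤ) + w p.1 + w p.2) Q) := by
    rw [Nat.card_prod, Nat.card_pi, Nat.card_pi,
      Finset.prod_coe_sort S (fun q => Nat.card (GQ g h A q)),
      Finset.prod_coe_sort ((P2 g).erase p0)
        (fun p => Nat.card (Jb (2 * (N : ℤ) + w p.1 + w p.2) Q))]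
  rw [hcard] at h1
  have h3 : 2 ^ S.card * ∏ q ∈ S, Nat.card (GQ g h A q) ≤ Q ^ (g * (2 * g + 1)) := by
    rw [← Finset.prod_const, ← Finset.prod_mul_distrib, hQdef, ← Finset.prod_pow]
    exact Finset.prod_le_prod' fun q hq => card_GQ hCQ hg hS hAs hAd hq
  have h4 : Q ^ dd g * ∏ p ∈ (P2 g).erase p0, Nat.card (Jb (2 * (N : ℤ) + w p.1 + w p.2) Q) ≤
      4 ^ dd g * 2 ^ ∑ p ∈ (P2 g).erase p0, e p := by
    rw [← Finset.prod_pow_eq_pow_sum, ← card_erase hp0, ← Finset.prod_const, ← Finset.prod_const,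
      ← Finset.prod_mul_distrib, ← Finset.prod_mul_distrib]
    exact Finset.prod_le_prod' fun p _ => card_Jb hQ1 (hQe p)
  have h5 : ∑ p ∈ (P2 g).erase p0, e p ≤ 2 * N * dd g := by
    have e0 := sum_erase (e := e) hp0
    have e1 : ∀ p, ((e p : ℕ) : ℤ) = 2 * N + (w p.1 + w p.2) := by
      intro p
      have h1 := hw0 p.1
      have h2 := hw0 p.2
      show (((2 * (N : ℤ) + w p.1 + w p.2).toNat : ℕ) : ℤ) = _
      omega
    have e2 : ((∑ p ∈ P2 g, e p : ℕ) : ℤ) = 2 * N * (dd g + 1) := by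
      rw [Nat.cast_sum, Finset.sum_congr rfl fun p _ => e1 p, Finset.sum_add_distrib, sum_P2 hw,
        Finset.sum_const, card_P2, nsmul_eq_mul, add_zero]
      push_cast
      ring
    have e3 := e1 p0
    have e4 : ((∑ p ∈ (P2 g).erase p0, e p : ℕ) : ℤ) ≤ ((2 * N * dd g : ℕ) : ℤ) := by
      have e5 : ((∑ p ∈ (P2 g).erase p0, e p : ℕ) : ℤ) + (e p0 : ℤ) = 2 * N * (dd g + 1) := by
        rw [← e2, ← e0]
        push_cast
        ring
      push_cast at e5 ⊢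
      linarith
    exact_mod_cast e4
  calc 2 ^ S.card * (∏ q ∈ S, q ^ (2 * g)) * {B : Mt g ℤ | Xset g N c w S h A B}.ncard
      ≤ 2 ^ S.card * (∏ q ∈ S, q ^ (2 * g)) *
        ((∏ q ∈ S, Nat.card (GQ g h A q)) *
          ∏ p ∈ (P2 g).erase p0, Nat.card (Jb (2 * (N : ℤ) + w p.1 + w p.2) Q)) :=
        Nat.mul_le_mul_left _ h1
    _ = (2 ^ S.card * ∏ q ∈ S, Nat.card (GQ g h A q)) * (Q ^ (2 * g) *
          ∏ p ∈ (P2 g).erase p0, Nat.card (Jb (2 * (N : ℤ) + w p.1 + w p.2) Q)) := by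
        rw [Finset.prod_pow, ← hQdef]
        ring
    _ ≤ Q ^ (g * (2 * g + 1)) * (Q ^ (2 * g) *
          ∏ p ∈ (P2 g).erase p0, Nat.card (Jb (2 * (N : ℤ) + w p.1 + w p.2) Q)) :=
        Nat.mul_le_mul_right _ h3
    _ = Q ^ dd g * ∏ p ∈ (P2 g).erase p0, Nat.card (Jb (2 * (N : ℤ) + w p.1 + w p.2) Q) := by
        rw [← mul_assoc, ← pow_add]
        congr 2
        unfold dd
        ring
    _ ≤ 4 ^ dd g * 2 ^ ∑ p ∈ (P2 g).erase p0, e p := h4
    _ ≤ 4 ^ dd g * 2 ^ (2 * N * dd g) :=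
        Nat.mul_le_mul_left _ (Nat.pow_le_pow_right (by norm_num) h5)

end main

theorem pb (hCQ : S_CQA) : S_PB := by
  intro g c hg
  refine ⟨4 ^ dd g * (3 ^ (dd g + 1) * 2 ^ (c * (dd g + 1))), fun W S h hS N w hw hQ => ?_⟩
  refine (assemble (fun A => fiber hCQ hg hS hw hQ A)).trans (le_of_eq ?_)
  rw [pow_add 2 (eA g w)]
  ring

end Pool.Agent.N951.PQ
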